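import Pool.Agent.H37.CTO.Stmts

/-!
Board cto, row P55, helper65: the quotient `W / M` (from `T55` of helper46).
-/

set_option autoImplicit false

namespace Pool.CND

open Finset

namespace P55Aux

/-- the order of `z` from the order of `z ^ q - z` -/
lemma ordz {k L : Type} [Field k] [Field L] [Algebra k L] (P : Place k L) (q : ℕ) (hq : 2 ≤ q)
    (z : L) (hA : z ^ q - z ≠ 0) (ho : P.ord (z ^ q - z) < 0) :
    (q : ℤ) * P.ord z = P.ord (z ^ q - z) := by
  have hz : z ≠ 0 := by
    rintro rfl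
    apply hA
    rw [zero_pow (by omega), sub_zero]
  have hz' : P.ord z < 0 := by
    by_contra hc
    rw [not_lt] at hc
    have h1 : P.Ge (z ^ q) 0 := Or.inr (by rw [P.ord_pow hz]; positivity)
    have h2 : P.Ge z 0 := Or.inr hc
    rcases P.ge_sub h1 h2 with h3 | h3
    · exact hA h3
    · omega
  have h1 : P.Ge (-z) (P.ord (z ^ q) + 1) := by
    refine Or.inr ?_
    rw [P.ord_neg, P.ord_pow hz]
    have hq' : (2 : ℤ) ≤ (q : ℤ) := by exact_mod_cast hq
    nlinarith
  have h2 := (P.ord_add_of_lt (pow_ne_zero q hz) h1).2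
  rw [← sub_eq_add_neg] at h2
  rw [h2, P.ord_pow hz]

end P55Aux

open P55Aux

theorem p55_thm (hUMR : S_UMR) (hINF : S_INF) (hTOT : S_TOT) (hWLD : S_WLD) : S_P55 := by
  intro p k F L _ _ _ _ _ _ _ f q s t X G₀ _ ρ h z Z β P I W M hp hp2 hchar hf hq hF hC ht hut
    hh0 hoh hge hhW hβ hZ hZo hI hW hM
  have : Fact p.Prime := ⟨hp⟩
  have hp3 : 3 ≤ p := by
    have := hp.two_le
    omega
  have hq3 : 3 ≤ q := by
    rw [hq]
    calc 3 ≤ p := hp3
      _ = p ^ 1 := (pow_one p).symm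
      _ ≤ p ^ f := Nat.pow_le_pow_right hp.pos hf
  have hQ3 : 3 ≤ q ^ (s + 1) := by
    calc 3 ≤ q := hq3
      _ = q ^ 1 := (pow_one q).symm
      _ ≤ q ^ (s + 1) := Nat.pow_le_pow_right (by omega) (by omega)
  have hWm : ∀ g : G₀, g ∈ W ↔ g ∈ ram P ρ 1 := by
    intro g
    rw [← hW]
    rfl
  -- the order of A
  set A : L := z ^ q ^ (s + 1) - z with hAdef
  have hA1 : A ≠ 0 ∧ P.ord A = P.ord h := by
    have h1 : P.Ge (A + h) (P.ord (-h) + 1) := by
      rw [P.ord_neg]
      exact P.ge_mono hge (by omega)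
    have h2 := P.ord_add_of_lt (neg_ne_zero.2 hh0) h1
    have h3 : -h + (A + h) = A := by ring
    rw [h3, P.ord_neg] at h2
    exact h2
  obtain ⟨hA0, hAo⟩ := hA1
  have hIo := hINF k L G₀ ρ t P I hC.cov ht hI
  obtain ⟨τz, hτz⟩ := hTOT k L G₀ P ρ W hC.cov.inj (fun n hn => ((hWm n).1 hn).1) h hh0
    (fun w hw => hhW w ((hWm w).1 hw))
  have hWpos : 0 < Nat.card W := Nat.card_pos
  have hIpos : 0 < Nat.card I := Nat.card_pos
  have hQ1 : ((q ^ (s + 1) - 1 : ℕ) : ℤ) = (q : ℤ) ^ (s + 1) - 1 := by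
    push_cast [Nat.cast_sub (by omega : 1 ≤ q ^ (s + 1))]
    ring
  have hQz : (3 : ℤ) ≤ (q : ℤ) ^ (s + 1) := by exact_mod_cast hQ3
  have hhneg : P.ord h < 0 := by
    by_contra hcon
    rw [not_lt] at hcon
    have : 0 ≤ ((q : ℤ) ^ (s + 1) - 1) * P.ord h := mul_nonneg (by linarith) hcon
    omega
  have hτneg : τz < 0 := by
    by_contra hcon
    rw [not_lt] at hcon
    have : 0 ≤ (Nat.card W : ℤ) * τz := mul_nonneg (by positivity) hcon
    omega
  obtain ⟨τ, hτ⟩ : ∃ τ : ℕ, τz = -(τ : ℤ) := ⟨τz.natAbs, by omega⟩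
  have hτ1 : 1 ≤ τ := by omega
  have hho' : P.ord h = -((τ * Nat.card W : ℕ) : ℤ) := by
    rw [hτz, hτ]
    push_cast
    ring
  have hIW : Nat.card I = Nat.card W * ((q ^ (s + 1) - 1) * τ) := by
    have h1 : (Nat.card I : ℤ) = ((Nat.card W * ((q ^ (s + 1) - 1) * τ) : ℕ) : ℤ) := by
      have h2 : ((q : ℤ) ^ (s + 1) - 1) * P.ord h = -(Nat.card I : ℤ) := by rw [hoh, hIo]
      rw [hho'] at h2
      rw [Nat.cast_mul, Nat.cast_mul, hQ1]
      push_cast at h2
      linarith
    exact_mod_cast h1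
  have hτp : ¬ p ∣ τ := by
    obtain ⟨W', I', hW', hI', -, -, m, hm, hcard⟩ := hWLD p k L G₀ P ρ hp hchar hC.cov.inj
    have e1 : W' = W := SetLike.coe_injective (hW'.trans hW.symm)
    have e2 : I' = I := SetLike.coe_injective (hI'.trans hI.symm)
    rw [e1, e2, hIW] at hcard
    have h3 : (q ^ (s + 1) - 1) * τ = m := by
      have : Nat.card W * ((q ^ (s + 1) - 1) * τ) = Nat.card W * m := by rw [hcard]; ring
      exact Nat.eq_of_mul_eq_mul_left hWpos this
    intro hd
    exact hm (h3 ▸ Dvd.dvd.mul_left hd _)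
  -- indices
  have hmi0 : ∀ l, mi s l ≠ 0 := by
    intro l h0
    have := congrArg Fin.val h0
    simp [mi] at this
  have hmil : ∀ l, mi s l ≠ Fin.last (s + 2) := by
    intro l h0
    have := congrArg Fin.val h0
    have hl := l.isLt
    simp [mi] at this
    omega
  -- UMR
  have hMW : M ≤ W := fun g hg => ((hM g).1 hg).1
  have hmain := hUMR p k F L G₀ f q (s + 1) τ P ρ W M
    (fun g => fun l => g.1.1 (mi s l) (Fin.last (s + 2))) Z
    (fun _ => τ) hp hchar hf hq hF (by omega) hC.cov.inj (fun g hg => (hWm g).1 hg) hMW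
    (by
      intro g hg
      rw [hM g]
      constructor
      · intro h1
        funext i
        exact h1.2 i
      · intro h1
        exact ⟨hg, fun l => congrFun h1 l⟩)
    (by
      intro g hg g' hg'
      obtain ⟨-, u1, u2⟩ := hut g ((hWm g).1 hg)
      obtain ⟨-, v1, v2⟩ := hut g' ((hWm g').1 hg')
      funext l
      show (g * g').1.1 (mi s l) (Fin.last (s + 2)) =
        g.1.1 (mi s l) (Fin.last (s + 2)) + g'.1.1 (mi s l) (Fin.last (s + 2))
      have e : (g * g').1.1 (mi s l) (Fin.last (s + 2)) =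
          ∑ j, g.1.1 (mi s l) j * g'.1.1 j (Fin.last (s + 2)) := by
        rw [Subgroup.coe_mul, Matrix.SpecialLinearGroup.coe_mul, Matrix.mul_apply]
      rw [e, Fin.sum_univ_castSucc]
      have e1 : ∑ j : Fin (s + 2), g.1.1 (mi s l) j.castSucc *
          g'.1.1 j.castSucc (Fin.last (s + 2)) = g'.1.1 (mi s l) (Fin.last (s + 2)) := by
        have e2 : ∀ j : Fin (s + 2), g.1.1 (mi s l) j.castSucc *
            g'.1.1 j.castSucc (Fin.last (s + 2)) =
            if mi s l = j.castSucc then g'.1.1 (mi s l) (Fin.last (s + 2)) else 0 := by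
          intro j
          rw [u1 (mi s l) j.castSucc (Fin.castSucc_lt_last j).ne (hmi0 l)]
          split_ifs with hj
          · rw [one_mul, ← hj]
          · rw [zero_mul]
        rw [Finset.sum_congr rfl fun j _ => e2 j]
        have e3 : ∀ j : Fin (s + 2), (mi s l = j.castSucc) ↔
            ((⟨l.val + 1, by omega⟩ : Fin (s + 2)) = j) := by
          intro j
          rw [Fin.ext_iff, Fin.ext_iff]
          rfl
        rw [Finset.sum_congr rfl fun j _ => if_congr (e3 j) rfl rfl]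
        rw [Finset.sum_ite_eq, if_pos (Finset.mem_univ _)]
      rw [e1, v2 (Fin.last (s + 2)), if_pos rfl, mul_one]
      ring)
    (fun g hg i => hZ g ((hWm g).1 hg) i)
    (by
      intro a ha
      refine ⟨hτ1, hτp, le_rfl, 0, fun w _ => map_zero _, ?_⟩
      set γ : k := ∑ l, algebraMap F k (a l) * β l with hγ
      have hγ0 : γ ≠ 0 := fun h0 => ha (hβ a h0)
      have hL0 : algebraMap k L γ ≠ 0 := by
        rw [Ne, map_eq_zero]
        exact hγ0
      have hx0 : -(algebraMap k L γ * h) ≠ 0 := neg_ne_zero.2 (mul_ne_zero hL0 hh0)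
      have hxo : P.ord (-(algebraMap k L γ * h)) = P.ord h := by
        rw [P.ord_neg, P.ord_mul _ _ hL0 hh0, P.ord_const _ hγ0, zero_add]
      have hy : P.Ge (∑ l, cst k F L (a l) * (Z l ^ q - Z l + algebraMap k L (β l) * h))
          (P.ord (-(algebraMap k L γ * h)) + 1) := by
        refine P.ge_sum _ _ _ fun l _ => ?_
        have h1 := P.ge_mul (P.ge_const (algebraMap F k (a l))) (hZo l)
        refine P.ge_mono h1 ?_
        rw [hxo]
        omega
      have e1 : ∑ i, cst k F L (a i) * (Z i ^ q - Z i) - ((0 : L) ^ p - 0) =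
          -(algebraMap k L γ * h) +
            ∑ l, cst k F L (a l) * (Z l ^ q - Z l + algebraMap k L (β l) * h) := by
        have e2 : ∑ l, cst k F L (a l) * (Z l ^ q - Z l + algebraMap k L (β l) * h) =
            ∑ i, cst k F L (a i) * (Z i ^ q - Z i) + algebraMap k L γ * h := by
          rw [hγ, map_sum, Finset.sum_mul, ← Finset.sum_add_distrib]
          refine Finset.sum_congr rfl fun l _ => ?_
          rw [map_mul]
          show cst k F L (a l) * (Z l ^ q - Z l + algebraMap k L (β l) * h) =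
            cst k F L (a l) * (Z l ^ q - Z l) + cst k F L (a l) * algebraMap k L (β l) * h
          ring
        rw [e2, zero_pow hp.ne_zero, sub_zero, sub_zero]
        ring
      rw [e1]
      obtain ⟨h3, h4⟩ := P.ord_add_of_lt hx0 hy
      exact ⟨h3, by rw [h4, hxo, hho']⟩)
  obtain ⟨m1, -, m3, -⟩ := hmain
  refine ⟨τ, hτ1, hτp, m1, hIW, ?_, m3 (fun _ _ => rfl)⟩
  have h1 := ordz P (q ^ (s + 1)) (by omega) z hA0 (by rw [← hAdef, hAo]; exact hhneg)
  rw [← hAdef, hAo, hho', m1] at h1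
  have hq0 : ((q ^ (s + 1) : ℕ) : ℤ) ≠ 0 := by
    have : 0 < q ^ (s + 1) := by omega
    exact_mod_cast this.ne'
  have h2 : ((q ^ (s + 1) : ℕ) : ℤ) * P.ord z =
      ((q ^ (s + 1) : ℕ) : ℤ) * (-((τ * Nat.card M : ℕ) : ℤ)) := by
    rw [h1]
    push_cast
    ring
  exact mul_left_cancel₀ hq0 h2

end Pool.CND
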